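import Mathlib
import Pool.Agent.Y589.CP.Main

/-!
# `C_p(X, K)` can be Lindelöf exactly for the `T₁` spaces `K` with at most two points

In ZFC there is one zero-dimensional Tychonoff space `X` such that, for EVERY `T₁` space `K`, each of
the properties Lindelöf, metacompact, subparacompact holds for `C_p(X, K)` if and only if `K` has at
most two points. In particular `C_p(X, {0,1})` is Lindelöf while `C_p(X, {0,1,2})`, `C_p(X)` and all
powers of `C_p(X, {0,1})` with at least two factors are neither metacompact nor subparacompact.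
-/

set_option autoImplicit false

namespace Pool.Agent.Results.MP_ad67b9_gt.TwoValuesOnly

/-- `C_p(X, K)`: the continuous maps `X → K` with the topology of pointwise convergence. -/
abbrev Cp (X K : Type) [TopologicalSpace X] [TopologicalSpace K] : Type := {f : X → K // Continuous f}

/-- A space is metacompact if every open cover has a point-finite open refinement. -/
def Metacompact (P : Type) [TopologicalSpace P] : Prop :=
  ∀ 𝒰 : Set (Set P), (∀ U ∈ 𝒰, IsOpen U) → ⋃₀ 𝒰 = Set.univ →
    ∃ 𝒱 : Set (Set P), (∀ V ∈ 𝒱, IsOpen V) ∧ ⋃₀ 𝒱 = Set.univ ∧ (∀ V ∈ 𝒱, ∃ U ∈ 𝒰, V ⊆ U) ∧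
      ∀ p, {V | V ∈ 𝒱 ∧ p ∈ V}.Finite

/-- A space is subparacompact if every open cover has a σ-discrete closed refinement: a sequence
`ℋ n` of discrete families of closed sets, each inside a member of the cover, whose union covers. -/
def Subparacompact (P : Type) [TopologicalSpace P] : Prop :=
  ∀ 𝒰 : Set (Set P), (∀ U ∈ 𝒰, IsOpen U) → ⋃₀ 𝒰 = Set.univ →
    ∃ ℋ : ℕ → Set (Set P), (∀ n, ∀ H ∈ ℋ n, IsClosed H ∧ ∃ U ∈ 𝒰, H ⊆ U) ∧
      (⋃ n, ⋃₀ ℋ n) = Set.univ ∧
      ∀ n p, ∃ O, IsOpen O ∧ p ∈ O ∧ {H | H ∈ ℋ n ∧ (H ∩ O).Nonempty}.Subsingleton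

/-- There is a zero-dimensional (Tychonoff) space `X` such that
(1) for every `T₁` space `K` the space `C_p(X, K)` is Lindelöf (metacompact, subparacompact) if and
only if `K` has at most two points;
(2) for every set `I` the power `C_p(X, {0,1})^I` is Lindelöf (metacompact, subparacompact) if and
only if `I` has at most one element. -/
theorem result : ∃ (X : Type) (_ : TopologicalSpace X), T35Space X ∧
    TopologicalSpace.IsTopologicalBasis {s : Set X | IsClopen s} ∧
    (∀ (K : Type) [TopologicalSpace K] [T1Space K],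
      (LindelofSpace (Cp X K) ↔ Cardinal.mk K ≤ 2) ∧ (Metacompact (Cp X K) ↔ Cardinal.mk K ≤ 2) ∧
        (Subparacompact (Cp X K) ↔ Cardinal.mk K ≤ 2)) ∧
    ∀ I : Type, (LindelofSpace (I → Cp X Bool) ↔ Subsingleton I) ∧
      (Metacompact (I → Cp X Bool) ↔ Subsingleton I) ∧
      (Subparacompact (I → Cp X Bool) ↔ Subsingleton I) :=
  Pool.Agent.Y589.CP.main

end Pool.Agent.Results.MP_ad67b9_gt.TwoValuesOnly
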